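import Pool.Agent.AFL.Stmts
import Pool.Agent.Helper67_AFJ.L1

/-!
# Rows NBL, LTL of the block lemma
-/

set_option autoImplicit false

open scoped BigOperators Matrix

noncomputable section

namespace Pool.Agent.AFL.H67

open Pool.Agent.LE.QF Pool.Agent.AFJ Pool.Agent.AFL

theorem nbl : NblStmt := fun hB X _ _ G κ A b f κv r hN hκv hr hκb hrho =>
  AFJ.H67.nbl hB G κ A b f κv r hN hκv hr hκb hrho

theorem ltl : LtlStmt := by
  intro X _ _ G κ b R x κR a r S0 hN hb hκR hκ hr hS0 hK
  have hK0 : ∀ x y, 0 ≤ KK G x y := fun x y => sq_nonneg _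
  have hsum : ∑ y ∈ R, KK G x y ≤ r / κR := by
    rw [le_div_iff₀ hκR, Finset.sum_mul]
    refine (Finset.sum_le_sum fun y hy => ?_).trans hr
    rw [mul_comm]
    exact mul_le_mul_of_nonneg_right (hκ y hy) (hK0 _ _)
  have hs0 : 0 ≤ ∑ y ∈ R, KK G x y := Finset.sum_nonneg fun y _ => hK0 _ _
  set u : X → ℝ := fun y => if y ∈ R then KK G x y else 0 with hu
  have e1 : ∑ y, u y ^ 2 = LaR G R x := by
    rw [LaR, ← Finset.sum_subset (Finset.subset_univ R)]
    · exact Finset.sum_congr rfl fun y hy => by simp only [hu, if_pos hy]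
    · intro y _ hy
      simp only [hu, if_neg hy]
      norm_num
  have e2 : ∑ y, |u y| = ∑ y ∈ R, KK G x y := by
    rw [← Finset.sum_subset (Finset.subset_univ R)]
    · exact Finset.sum_congr rfl fun y hy => by simp only [hu, if_pos hy, abs_of_nonneg (hK0 x y)]
    · intro y _ hy
      simp only [hu, if_neg hy, abs_zero]
  have e3 : ∑ y ∈ R, ∑ c ∈ b, KK G x y * KK G x c * KK G c y ≤ qf (KK G) u := by
    have f1 : qf (KK G) u = ∑ y ∈ R, ∑ c ∈ R, KK G x y * KK G x c * KK G c y := by
      rw [qf, ← Finset.sum_subset (Finset.subset_univ R)]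
      · refine Finset.sum_congr rfl fun y hy => ?_
        simp only [Matrix.mulVec, dotProduct]
        rw [← Finset.sum_subset (Finset.subset_univ R), Finset.mul_sum]
        · refine Finset.sum_congr rfl fun c hc => ?_
          simp only [hu, if_pos hy, if_pos hc]
          have : KK G c y = KK G y c := by simp only [KK]; rw [hN.hs c y]
          rw [this]
          ring
        · intro c _ hc
          simp only [hu, if_neg hc, mul_zero]
      · intro y _ hy
        simp only [hu, if_neg hy, zero_mul]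
    rw [f1]
    refine Finset.sum_le_sum fun y _ => ?_
    exact Finset.sum_le_sum_of_subset_of_nonneg hb fun c _ _ =>
      mul_nonneg (mul_nonneg (hK0 _ _) (hK0 _ _)) (hK0 _ _)
  have e4 := hK u fun y hy => by simp only [hu, if_neg hy]
  rw [e1, e2] at e4
  exact e3.trans (e4.trans (add_le_add le_rfl
    (mul_le_mul_of_nonneg_left (pow_le_pow_left₀ hs0 hsum 2) hS0)))

end Pool.Agent.AFL.H67
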